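import Mathlib

/-!
# Monotone `G_δ` representatives of Lebesgue measurable sets (MP_2abcfb_lc, Q1 and Q2)

The set of points at which the upper density of `M` is at least `1` is a `G_δ` set, it depends
monotonically on `M`, it depends only on `M` modulo null sets and it agrees with `M` up to a null
set.
-/

set_option autoImplicit false

namespace Pool.Agent.Results.MP_2abcfb_lc.MonotoneGdelta

open MeasureTheory Metric Set Filter Topology

/-- The Lebesgue measurable subsets of `ℝ`. -/
abbrev LebesgueSet := {M : Set ℝ // NullMeasurableSet M volume}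

/-- The points of upper density (at least) `1` of `M`. -/
def dens (M : Set ℝ) : Set ℝ :=
  ⋂ n : ℕ, ⋃ r ∈ Ioo (0 : ℝ) (1 / (n + 1)),
    {x | ENNReal.ofReal (2 * r * (1 - 1 / (n + 1))) < volume (M ∩ closedBall x r)}

lemma diff_le (x y r : ℝ) : volume (closedBall x r \ closedBall y r) ≤ ENNReal.ofReal |x - y| := by
  rw [Real.closedBall_eq_Icc, Real.closedBall_eq_Icc]
  rcases le_total x y with h | h
  · have h1 : Icc (x - r) (x + r) \ Icc (y - r) (y + r) ⊆ Ico (x - r) (y - r) := by
      rintro z ⟨⟨h1, h2⟩, h3⟩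
      refine ⟨h1, ?_⟩
      by_contra h4
      push Not at h4
      exact h3 ⟨h4, by linarith⟩
    refine (measure_mono h1).trans ?_
    rw [Real.volume_Ico, abs_sub_comm, abs_of_nonneg (by linarith)]
    apply ENNReal.ofReal_le_ofReal
    linarith
  · have h1 : Icc (x - r) (x + r) \ Icc (y - r) (y + r) ⊆ Ioc (y + r) (x + r) := by
      rintro z ⟨⟨h1, h2⟩, h3⟩
      refine ⟨?_, h2⟩
      by_contra h4
      push Not at h4
      exact h3 ⟨by linarith, h4⟩
    refine (measure_mono h1).trans ?_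
    rw [Real.volume_Ioc, abs_of_nonneg (by linarith)]
    apply ENNReal.ofReal_le_ofReal
    linarith

lemma isOpen_piece (M : Set ℝ) (r : ℝ) (c : ENNReal) :
    IsOpen {x | c < volume (M ∩ closedBall x r)} := by
  rw [Metric.isOpen_iff]
  intro x hx
  obtain ⟨ε, hε, h1⟩ := ENNReal.lt_iff_exists_add_pos_lt.mp (show c < volume (M ∩ closedBall x r) from hx)
  refine ⟨ε, hε, fun y hy => ?_⟩
  show c < volume (M ∩ closedBall y r)
  by_contra h2
  push Not at h2
  have h3 : M ∩ closedBall x r ⊆ (M ∩ closedBall y r) ∪ (closedBall x r \ closedBall y r) := by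
    rintro z ⟨hz1, hz2⟩
    by_cases hz : z ∈ closedBall y r
    · exact Or.inl ⟨hz1, hz⟩
    · exact Or.inr ⟨hz2, hz⟩
  have h4 : volume (M ∩ closedBall x r) ≤ c + ε := by
    refine (measure_mono h3).trans ((measure_union_le _ _).trans ?_)
    refine add_le_add h2 ((diff_le x y r).trans ?_)
    rw [mem_ball, Real.dist_eq, abs_sub_comm] at hy
    rw [← ENNReal.ofReal_coe_nnreal]
    exact ENNReal.ofReal_le_ofReal hy.le
  exact absurd h1 (not_lt.mpr h4)

lemma isGδ_dens (M : Set ℝ) : IsGδ (dens M) := by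
  refine IsGδ.iInter fun n => IsOpen.isGδ ?_
  exact isOpen_biUnion fun r _ => isOpen_piece M r _

lemma dens_mono {M M' : Set ℝ} (h : M ⊆ M') : dens M ⊆ dens M' := by
  refine iInter_mono fun n => iUnion₂_mono fun r _ x hx => ?_
  exact lt_of_lt_of_le hx (measure_mono (inter_subset_inter_left _ h))

lemma dens_congr {M M' : Set ℝ} (h : M =ᵐ[volume] M') : dens M = dens M' := by
  have h1 : ∀ x r, volume (M ∩ closedBall x r) = volume (M' ∩ closedBall x r) := by
    intro x r
    exact measure_congr (h.inter (ae_eq_refl _))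
  simp only [dens, h1]

lemma dens_ae_of_measurable {M : Set ℝ} (hM : MeasurableSet M) : dens M =ᵐ[volume] M := by
  have key := Besicovitch.ae_tendsto_measure_inter_div_of_measurableSet (volume : Measure ℝ) hM
  filter_upwards [key] with x hx
  have hvol : ∀ r : ℝ, volume (closedBall x r) = ENNReal.ofReal (2 * r) := fun r =>
    Real.volume_closedBall x r
  apply propext
  change x ∈ dens M ↔ x ∈ M
  by_cases hxM : x ∈ M
  · refine ⟨fun _ => hxM, fun _ => ?_⟩
    rw [indicator_of_mem hxM] at hx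
    refine mem_iInter.mpr fun n => ?_
    have hn : (0 : ℝ) < 1 / (n + 1) := by positivity
    have hlt : ENNReal.ofReal (1 - 1 / (n + 1)) < 1 := by
      rw [← ENNReal.ofReal_one]
      exact (ENNReal.ofReal_lt_ofReal_iff one_pos).mpr (by linarith)
    have h1 := (tendsto_order.mp hx).1 _ hlt
    have h2 : ∀ᶠ r : ℝ in 𝓝[>] 0, r ∈ Ioo (0 : ℝ) (1 / (n + 1)) := Ioo_mem_nhdsGT hn
    obtain ⟨r, h3, h4⟩ := (h1.and h2).exists
    refine mem_iUnion₂.mpr ⟨r, h4, ?_⟩
    show ENNReal.ofReal (2 * r * (1 - 1 / (n + 1))) < volume (M ∩ closedBall x r)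
    rw [hvol] at h3
    have h5 : (0 : ℝ) < 2 * r := by linarith [h4.1]
    rw [ENNReal.lt_div_iff_mul_lt (Or.inl (by positivity)) (Or.inl ENNReal.ofReal_ne_top)] at h3
    rw [ENNReal.ofReal_mul h5.le, mul_comm]
    exact h3
  · refine ⟨fun h => ?_, fun h => absurd h hxM⟩
    exfalso
    rw [indicator_of_notMem hxM] at hx
    have h1 := (tendsto_order.mp hx).2 (ENNReal.ofReal (1 / 2)) (by simp)
    rw [Filter.Eventually, mem_nhdsGT_iff_exists_Ioo_subset] at h1
    obtain ⟨δ, hδ, h2⟩ := h1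
    obtain ⟨n, hn⟩ := exists_nat_one_div_lt (show (0 : ℝ) < min δ (1 / 2) from
      lt_min hδ (by norm_num))
    have h3 := mem_iInter.mp h n
    obtain ⟨r, hr, h4⟩ := mem_iUnion₂.mp h3
    have h5 : r ∈ Ioo (0 : ℝ) δ := ⟨hr.1, hr.2.trans (hn.trans_le (min_le_left _ _))⟩
    have h6 : volume (M ∩ closedBall x r) / volume (closedBall x r) < ENNReal.ofReal (1 / 2) :=
      h2 h5
    have h7 : (0 : ℝ) < 2 * r := by linarith [hr.1]
    rw [hvol, ENNReal.div_lt_iff (Or.inl (by positivity)) (Or.inl ENNReal.ofReal_ne_top)] at h6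
    have h8 : ENNReal.ofReal (2 * r * (1 - 1 / (n + 1))) < volume (M ∩ closedBall x r) := h4
    have h9 := h8.trans h6
    rw [← ENNReal.ofReal_mul (by norm_num), ENNReal.ofReal_lt_ofReal_iff (by positivity)] at h9
    have h10 := hn.trans_le (min_le_right _ _)
    nlinarith

lemma dens_ae {M : Set ℝ} (hM : NullMeasurableSet M volume) : dens M =ᵐ[volume] M := by
  obtain ⟨M', -, hM', h⟩ := hM.exists_measurable_superset_ae_eq
  rw [← dens_congr h]
  exact (dens_ae_of_measurable hM').trans h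

/-- There is a map `ψ` from the Lebesgue measurable subsets of `ℝ` to the `G_δ` subsets of `ℝ` which
is monotone, satisfies `λ(M Δ ψ(M)) = 0` for all `M`, and satisfies `ψ(M) = ψ(M')` whenever
`λ(M Δ M') = 0`. -/
theorem result : ∃ ψ : LebesgueSet → Set ℝ,
    (∀ M, IsGδ (ψ M)) ∧
    (∀ M M' : LebesgueSet, M.1 ⊆ M'.1 → ψ M ⊆ ψ M') ∧
    (∀ M : LebesgueSet, volume (symmDiff M.1 (ψ M)) = 0) ∧
    (∀ M M' : LebesgueSet, volume (symmDiff M.1 M'.1) = 0 → ψ M = ψ M') := by
  refine ⟨fun M => dens M.1, fun M => isGδ_dens _, fun M M' h => dens_mono h, fun M => ?_,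
    fun M M' h => ?_⟩
  · rw [measure_symmDiff_eq_zero_iff]
    exact (dens_ae M.2).symm
  · rw [measure_symmDiff_eq_zero_iff] at h
    exact dens_congr h

end Pool.Agent.Results.MP_2abcfb_lc.MonotoneGdelta
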